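import Pool.Agent.Helper10.W3.M_Trq
import Pool.Agent.Helper38.CV.M_Far
import Pool.Agent.Helper7.W5.M_DimK
import Pool.Agent.Helper99.W5.M_Split
import Pool.Agent.Helper53.TH.M_DIMKH
import Pool.Agent.Helper5.Q7P5.M_PLA
import Pool.Agent.Helper88.Q7P5.M_EDG
import Pool.Agent.Helper80.Q7P5.M_BAL
import Pool.Agent.Helper98.Q7P5.M_TYP
import Pool.Agent.Helper63.Q7P5.M_DIME
import Pool.Agent.Helper21.Q7P5.M_DIMO
import Pool.Agent.Helper61.Q7P5.M_E1A
import Pool.Agent.Helper75.Q7P5.M_E1B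
import Pool.Agent.Helper6.Q7P5.M_O1
import Pool.Agent.Helper53.Q7P5.M_UB

/-!
# Levels `7 * 5^n`, `W_7 = +1`: the upper bound for the new symbols, assembled
-/

set_option autoImplicit false

namespace Pool.Agent.Helper76.Q7P5

open Pool.Agent.Helper83.T7C

/-- Values on translated paths. -/
theorem edg57 : HEdg := Pool.Agent.Helper88.Q7P5.hEdg Pool.Agent.Helper5.Q7P5.hPlA

/-- The upper bound for the levels `7 * 5^n`. -/
theorem ub57 : UBH 5 dd := by
  have pla := Pool.Agent.Helper5.Q7P5.hPlA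
  have typ := Pool.Agent.Helper98.Q7P5.hTyp
  have dimKH := Pool.Agent.Helper53.TH.hDimKH Pool.Agent.Helper10.W3.hTrq
  have dimK := Pool.Agent.Helper7.W5.hDimK Pool.Agent.Helper10.W3.hTrq
  have split := Pool.Agent.Helper99.W5.hSplit
  have far := Pool.Agent.Helper38.CV.hFar
  exact Pool.Agent.Helper53.Q7P5.hUB Pool.Agent.Helper80.Q7P5.hBal
    (Pool.Agent.Helper61.Q7P5.hE1A edg57 pla typ)
    (Pool.Agent.Helper75.Q7P5.hE1B edg57 pla far)
    (Pool.Agent.Helper6.Q7P5.hO1 edg57 pla typ far)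
    (Pool.Agent.Helper63.Q7P5.hDimE typ dimKH dimK split)
    (Pool.Agent.Helper21.Q7P5.hDimO typ dimKH split)

end Pool.Agent.Helper76.Q7P5
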