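import Pool.Agent.Helper83.T7C.StB
import Pool.Agent.Helper76.TH.StC

/-!
# Levels `7 * 5^n`, `W_7 = +1`: upper bound for new symbols

The shape of `Helper76/TK5/StK.lean` (levels `3 * 5^n`, all modules closed: `Pool/Agent/Helper*/TK5/M_*K.lean`) on the same plane (W5: `Pt`, `trp`, `ng`, `dR`, `anti5`, `inv5`, `Kl`, closed theorems SPLIT `Pool.Agent.Helper99.W5.hSplit`, DIMK `Pool.Agent.Helper7.W5.hDimK`; types `TyH` and dimensions `HDimK` of TH, closed: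
`Pool.Agent.Helper53.TH.hDimKH Pool.Agent.Helper10.W3.hTrq`), with the group of the matrices `(a 5^μ b; 5c d)` of type `HTy` of `Helper28/T7/Defs.lean` (determinant one and `7 ∣ c`, or determinant seven and `7 ∣ a, c, d`). Standard matrices have a lower left entry divisible by `7`. RULE FOR REFLECTIONS.
`val π = {u, v} = G(gu) - G(gv)` for the path `π` from `v` to `u`, `F_π(p)` the value at the coordinates `p` of `g`. `b = (0 1; 7 0)` (even exponents, `μ = 1`), `b = (0 1; 35 0)` (odd exponents, `μ = 0`): if `g` has coordinates `p = (x, y)`, then `b⁻¹ g b` has coordinates `swH p = (y/7, 7x)`, `* g *` has `ng p`, `g M` has `trp μ a b c d p` for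
`M = (a 5^μ b; 5c d)` of type `HTy`. `G∘* ≈ G`, `G∘b ≈ -G`. So for `ρ = M`: the value of `G` at the path `g ρ π` is `F_π(trp M p)`; for `ρ = b M` (up to a scalar): `-F_π(trp M (swH p))`; for `ρ = * M`: `F_π(trp M (ng p))`; for `ρ = b * M`: `-F_π(trp M (ng (swH p)))`. All relations and the dimensions `22, 430` (odd, `m = 1, 2`), `82`
(even, `m = 1`) were checked by machine.
-/

set_option autoImplicit false

namespace Pool.Agent.Helper76.Q7P5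

open Pool.Agent.Helper14.CV (Homog EqC act StFar)
open Pool.Agent.Helper14.W5
open Pool.Agent.Helper76.TH (TyH HDimK)
open Pool.Agent.Helper28.T7
open Pool.Agent.Helper83.T7C (UBH)

/-- The matrix `(a, 5^μ b; 5 c, d)` is of type `HTy` and has plane coordinates `(x, y)`. -/
def PlH (μ : ℕ) {q q' : ℕ} (a b c d : ℤ) (x : ZMod q) (y : ZMod q') : Prop :=
  HTy a (5 ^ μ * b) (5 * c) d ∧ (b : ZMod q) = x * a ∧ (c : ZMod q') = y * d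

/-- The entry `Y` (divisible by `7`) of the standard matrix `(1, 5^μ X; 5 Y, 1 + 5^(μ+1) X Y)`, `X = x.val`. -/
noncomputable def rYH (μ : ℕ) {q q' : ℕ} (x : ZMod q) (y : ZMod q') : ℤ :=
  7 * ((y * (7 * (1 - 5 ^ (μ + 1) * ((x.val : ℕ) : ZMod q') * y))⁻¹).val : ℤ)

/-- The value of the symbol of `G` on the path from `g v` to `g u`, `g` the standard matrix with plane coordinates `(x, y)`. -/
noncomputable def edgeH {R : Type} [AddCommGroup R] (μ : ℕ) {q q' : ℕ} (u1 u2 v1 v2 : ℤ)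
    (G : ℤ → ℤ → R) (x : ZMod q) (y : ZMod q') : R :=
  G (u1 + 5 ^ μ * (x.val : ℤ) * u2) (5 * rYH μ x y * u1 + (1 + 5 ^ (μ + 1) * (x.val : ℤ) * rYH μ x y) * u2)
  - G (v1 + 5 ^ μ * (x.val : ℤ) * v2) (5 * rYH μ x y * v1 + (1 + 5 ^ (μ + 1) * (x.val : ℤ) * rYH μ x y) * v2)

/-- PLA. The standard matrix is of type `HTy` (first case) and has the right coordinates. (`7 (1 - 5^(μ+1) X y)` is a unit of `ZMod (5^s)`.) Model: `Pool/Agent/Helper76/TK5/M_PLAK.lean`. -/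
def HPlA : Prop := ∀ (μ r s : ℕ) (x : ZMod (5 ^ r)) (y : ZMod (5 ^ s)),
  PlH μ 1 (x.val : ℤ) (rYH μ x y) (1 + 5 ^ (μ + 1) * (x.val : ℤ) * rYH μ x y) x y

/-- The content of EDG. -/
def HEdg : Prop := ∀ (R : Type) (_ : AddCommGroup R) (μ r s : ℕ) (G : ℤ → ℤ → R),
  SymH 5 (r + μ) (s + 1) G → ∀ (u1 u2 v1 v2 : ℤ), (u1 ≠ 0 ∨ u2 ≠ 0) → (v1 ≠ 0 ∨ v2 ≠ 0) →
  ∀ (x : ZMod (5 ^ r)) (y : ZMod (5 ^ s)) (a b c d : ℤ), PlH μ a b c d x y →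
  edgeH μ u1 u2 v1 v2 G x y = G (a * u1 + 5 ^ μ * b * u2) (5 * c * u1 + d * u2) -
    G (a * v1 + 5 ^ μ * b * v2) (5 * c * v1 + d * v2)

/-- EDG (from PLA). Models: `Pool/Agent/Helper45/TK5/M_EDGK.lean`, `Pool/Agent/Helper51/Q5P3/M_EDG.lean`. -/
def StHEdg : Prop := HPlA → HEdg

/-- Balanced new symbols, even exponent `n = 2k`. -/
def BalEH (k : ℕ) (G : ℤ → ℤ → ℂ) : Prop :=
  SymH 5 k k G ∧ EqC (∑ i ∈ Finset.range 5, act 1 (i * 5 ^ (k - 1)) 0 1 G) 0 ∧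
    EqC (∑ i ∈ Finset.range 5, act 1 0 (7 * i * 5 ^ (k - 1)) 1 G) 0 ∧
    EqC (act 0 (-1) 7 0 G) (-G) ∧ EqC (act (-1) 0 0 1 G) G

/-- Balanced new symbols, odd exponent `n = 2k+1`. -/
def BalOH (k : ℕ) (G : ℤ → ℤ → ℂ) : Prop :=
  SymH 5 k (k + 1) G ∧ EqC (∑ i ∈ Finset.range 5, act 1 (i * 5 ^ (k - 1)) 0 1 G) 0 ∧
    EqC (∑ i ∈ Finset.range 5, act 1 0 (7 * i * 5 ^ k) 1 G) 0 ∧
    EqC (act 0 (-1) 35 0 G) (-G) ∧ EqC (act (-1) 0 0 1 G) G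

/-- BAL. Transport to the balanced form by `D = (1 0; 0 5^k)`. Models: `Pool/Agent/Helper71/TK5/M_BALK.lean`, `Pool/Agent/Helper73/Q5P3/M_BAL.lean`. -/
def HBal : Prop := ∀ (k : ℕ) (G : ℤ → ℤ → ℂ), 1 ≤ k →
  (NewSymH 5 (2 * k) G → BalEH k (act 1 0 0 (5 ^ k) G)) ∧
  (NewSymH 5 (2 * k + 1) G → BalOH k (act 1 0 0 (5 ^ k) G)) ∧
  (Homog G → EqC (act 1 0 0 (5 ^ k) G) 0 → EqC G 0)

/-! ### Functions on the plane -/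

/-- `(x, y) ↦ (y/7, 7x)`. -/
def swH {m : ℕ} (p : Pt m) : Pt m := (p.2 * (7 : ZMod (5 ^ m))⁻¹, 7 * p.1)

/-- Odd exponent (`μ = 0`): the circle around `1/2`, matrix `(35 -17; 70 -35) = b (2 -1; 35 -17)`. -/
def cOH {m : ℕ} (p : Pt m) : Pt m := trp 0 2 (-1) 7 (-17) (swH p)

/-- Odd exponent: the rotation of order two which exchanges `∞` and `2/7`, matrix `(10 -3; 35 -10)`, `b * (7 -2; -70 21) = -7 (10 -3; 35 -10)`. -/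
def r2H {m : ℕ} (p : Pt m) : Pt m := trp 0 7 (-2) (-14) 21 (ng (swH p))

/-- Odd exponent: the rotation of order two which exchanges `∞` and `1/3`, matrix `(35 -12; 105 -35)`, `b * (3 -1; -35 12) = -(35 -12; 105 -35)`. -/
def r3H {m : ℕ} (p : Pt m) : Pt m := trp 0 3 (-1) (-7) 12 (ng (swH p))

/-- Odd exponent: the matrix `(7 -3; 35 -14)` (determinant seven, an element of the group), which maps `∞, 0, 1/2, 1/3` to `1/5, 3/14, 1/7, 2/7`. -/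
def gOH {m : ℕ} (p : Pt m) : Pt m := trp 0 7 (-3) 7 (-14) p

/-- Even exponent (`μ = 1`): the circle around `5/3`, matrix `(35 -58; 21 -35) = b (3 -5; 35 -58)`. -/
def c2H {m : ℕ} (p : Pt m) : Pt m := trp 1 3 (-1) 7 (-58) (swH p)

/-- Even exponent: the circle around `5/2`, matrix `(35 -87; 14 -35) = b (2 -5; 35 -87)`. -/
def c3H {m : ℕ} (p : Pt m) : Pt m := trp 1 2 (-1) 7 (-87) (swH p)

/-- Even exponent: the circle over `[7/3, 17/7]`, matrix `(50 -119; 21 -50)`, `b (21 -50; 350 -833) = 7 (50 -119; 21 -50)`. -/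
def c4H {m : ℕ} (p : Pt m) : Pt m := trp 1 21 (-10) 70 (-833) (swH p)

/-- Even exponent: the circle over `[1/2, 4/7]`, matrix `(15 -8; 28 -15)`, `b (28 -15; 105 -56) = 7 (15 -8; 28 -15)`. -/
def c7H {m : ℕ} (p : Pt m) : Pt m := trp 1 28 (-3) 21 (-56) (swH p)

/-- Even exponent: the rotation of order two which exchanges `1/2` and `3/7`, matrix `(35 -16; 77 -35)`, `b * (11 -5; -35 16) = -(35 -16; 77 -35)`. -/
def r1H {m : ℕ} (p : Pt m) : Pt m := trp 1 11 (-1) (-7) 16 (ng (swH p))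

/-- Even exponent: the rotation of order two which exchanges `2/3` and `4/7`, matrix `(35 -22; 56 -35)`, `b * (8 -5; -35 22) = -(35 -22; 56 -35)`. -/
def r6H {m : ℕ} (p : Pt m) : Pt m := trp 1 8 (-1) (-7) 22 (ng (swH p))

/-- Even exponent: the matrix `(5 -7; 7 -10)` which maps `∞` to `5/7` and `1` to `2/3`, `b (7 -10; 35 -49) = 7 (5 -7; 7 -10)`. -/
def gAH {m : ℕ} (p : Pt m) : Pt m := trp 1 7 (-2) 7 (-49) (swH p)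

/-- Even exponent: the matrix `(10 -7; 7 -5)` (inverse of the last one), which maps `1` to `3/2` and `5/7` to `∞`, `b (7 -5; 70 -49) = 7 (10 -7; 7 -5)`. -/
def gEH {m : ℕ} (p : Pt m) : Pt m := trp 1 7 (-1) 14 (-49) (swH p)

/-- Even exponent: the matrix `(-63 25; -35 14) = * (63 -25; -35 14)` which maps `3/7` to `2` and `1/3` to `12/7`. -/
def gMH {m : ℕ} (p : Pt m) : Pt m := trp 1 63 (-5) (-7) 14 (ng p)

/-- Even exponent: the matrix `(210 -323; 91 -140) = b (13 -20; 210 -323)` which maps `11/7` to `7/3` and `3/2` to `16/7`. -/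
def gGH {m : ℕ} (p : Pt m) : Pt m := trp 1 13 (-4) 42 (-323) (swH p)

/-- TYP. The maps above and their types (`TyH` of TH). Proof as TYPK (`Pool/Agent/Helper44/TK5/M_TYPK.lean`; also `Pool/Agent/Helper55/Q5P3/M_TYP.lean`): `trp μ M' (trp μ M p) = trp μ (M M') p`, `trp` does not change under scalars prime to `5`, `swH (trp μ a b c d p) = trp μ d (c/7) (7b) a (swH p)` (`7 ∣ c`),
`ng (trp μ a b c d p) = trp μ a (-b) (-c) d (ng p)`, `swH (swH p) = p`, `ng (swH p) = swH (ng p)`; so all relations are identities of matrices up to a scalar (`gOH (swH p) = cOH (gOH p)`: `(0 1; 35 0) (7 -3; 35 -14)` and `(7 -3; 35 -14) (35 -17; 70 -35)` are proportional; `r3H (gOH p) = r2H p`: `(7 -3; 35 -14) (35 -12; 105 -35) = -7 (10 -3; 35 -10)`;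
`gAH (gEH p) = p`: `(10 -7; 7 -5) (5 -7; 7 -10) = 1`; `gMH (c2H p) = swH (gMH p)`; `gGH (c3H p) = c2H (gGH p)`). Derivatives: `det/a²`, `det/d²` modulo `5` (and `1/7`, `7` for `swH`): `gOH`: `3, 2`; `gMH`: `2, 3` (type `0`). -/
def HTyp : Prop := ∀ m : ℕ,
  (Kl (ng : Pt m → Pt m) swH ∧ TyH 0 (ng : Pt m → Pt m) ∧ TyH 1 (swH : Pt m → Pt m) ∧ TyH 1 (fun p : Pt m => ng (swH p))) ∧
  (Kl (dR 0 : Pt m → Pt m) cOH ∧ TyH 0 (dR 0 : Pt m → Pt m) ∧ TyH 1 (cOH : Pt m → Pt m) ∧ TyH 1 (fun p : Pt m => dR 0 (cOH p))) ∧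
  ((∀ p : Pt m, r2H (r2H p) = p) ∧ TyH 1 (r2H : Pt m → Pt m)) ∧ ((∀ p : Pt m, r3H (r3H p) = p) ∧ TyH 1 (r3H : Pt m → Pt m)) ∧
  (TyH 0 (gOH : Pt m → Pt m) ∧ (∀ p : Pt m, gOH (swH p) = cOH (gOH p)) ∧ ∀ p : Pt m, r3H (gOH p) = r2H p) ∧
  (Kl (dR 1 : Pt m → Pt m) c3H ∧ TyH 0 (dR 1 : Pt m → Pt m) ∧ TyH 1 (c3H : Pt m → Pt m) ∧ TyH 1 (fun p : Pt m => dR 1 (c3H p))) ∧
  ((∀ p : Pt m, c2H (c2H p) = p) ∧ TyH 1 (c2H : Pt m → Pt m)) ∧ ((∀ p : Pt m, c4H (c4H p) = p) ∧ TyH 1 (c4H : Pt m → Pt m)) ∧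
  ((∀ p : Pt m, c7H (c7H p) = p) ∧ TyH 1 (c7H : Pt m → Pt m)) ∧ ((∀ p : Pt m, r1H (r1H p) = p) ∧ TyH 1 (r1H : Pt m → Pt m)) ∧
  ((∀ p : Pt m, r6H (r6H p) = p) ∧ TyH 1 (r6H : Pt m → Pt m)) ∧
  (TyH 1 (gAH : Pt m → Pt m) ∧ TyH 1 (gEH : Pt m → Pt m) ∧ (∀ p : Pt m, gAH (gEH p) = p)) ∧
  (TyH 0 (gMH : Pt m → Pt m) ∧ ∀ p : Pt m, gMH (c2H p) = swH (gMH p)) ∧
  (TyH 1 (gGH : Pt m → Pt m) ∧ ∀ p : Pt m, gGH (c3H p) = c2H (gGH p))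

/-- The value `{∞, 1/5}` in terms of `e2 = {∞, 2/7}`, `e3 = {∞, 1/3}`. -/
def alH {m : ℕ} (e2 e3 : Pt m → ℂ) (p : Pt m) : ℂ := e2 p - e3 (gOH p)

/-- The target for odd exponents: `((f, l), (e2, e3))`, the values `{∞, 0}`, `{∞, 1/2}`, `{∞, 2/7}`, `{∞, 1/3}`. -/
def subOH (m : ℕ) : Submodule ℂ (((Pt m → ℂ) × (Pt m → ℂ)) × ((Pt m → ℂ) × (Pt m → ℂ))) where
  carrier := {F | F.1.1 ∈ inv5 (m := m) ng swH 1 1 ∧ F.1.2 ∈ inv5 (m := m) (dR 0) cOH 1 1 ∧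
    F.2.1 ∈ inv5 (m := m) r2H r2H 1 1 ∧ F.2.2 ∈ inv5 (m := m) r3H r3H 1 1 ∧
    ∀ p : Pt m, alH F.2.1 F.2.2 p + alH F.2.1 F.2.2 (swH p) + F.1.2 (gOH p) - F.1.1 p = 0}
  add_mem' := by
    rintro F F' ⟨h0, h1, h2, h3, h⟩ ⟨h0', h1', h2', h3', h'⟩
    refine ⟨Submodule.add_mem _ h0 h0', Submodule.add_mem _ h1 h1', Submodule.add_mem _ h2 h2',
      Submodule.add_mem _ h3 h3', fun p => ?_⟩
    have a1 := h p
    have b1 := h' p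
    simp only [alH, Prod.fst_add, Prod.snd_add, Pi.add_apply] at a1 b1 ⊢
    linear_combination a1 + b1
  zero_mem' := ⟨Submodule.zero_mem _, Submodule.zero_mem _, Submodule.zero_mem _, Submodule.zero_mem _,
    by intro p; simp [alH]⟩
  smul_mem' := by
    rintro c F ⟨h0, h1, h2, h3, h⟩
    refine ⟨Submodule.smul_mem _ c h0, Submodule.smul_mem _ c h1, Submodule.smul_mem _ c h2,
      Submodule.smul_mem _ c h3, fun p => ?_⟩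
    have a1 := h p
    simp only [alH, Prod.smul_fst, Prod.smul_snd, Pi.smul_apply, smul_eq_mul] at a1 ⊢
    linear_combination c * a1

/-- The value `{3/7, 1/3}` in terms of `f = {∞, 0}`, `l = {∞, 1/2}`, `A = {1/2, 3/7}`. -/
def eeH {m : ℕ} (f l A : Pt m → ℂ) (p : Pt m) : ℂ := f p - l p - l (swH p) - A p - A (swH p)

/-- The value `{1, 5/7}` in terms of `l`, `F1 = {∞, 1}`, `B = {2/3, 4/7}`, `C = {4/7, 1/2}`. -/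
def kkH {m : ℕ} (l F1 B C : Pt m → ℂ) (p : Pt m) : ℂ := l p - F1 p + F1 (gAH p) - B p - C p

/-- The value `{2, 3/2}` (`F2 = {∞, 2}`). -/
def xxH {m : ℕ} (l F1 B C F2 : Pt m → ℂ) (p : Pt m) : ℂ := kkH l F1 B C (gEH p) - F2 p

/-- The value `{11/7, 3/2}`. -/
def nnH {m : ℕ} (f l A F1 B C F2 : Pt m → ℂ) (p : Pt m) : ℂ :=
  xxH l F1 B C F2 p + xxH l F1 B C F2 (c2H p) - eeH f l A (gMH p)

/-- The value `{∞, 5/2}` (`N = {17/7, 7/3}`). -/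
def yyH {m : ℕ} (f l A F1 B C F2 N : Pt m → ℂ) (p : Pt m) : ℂ :=
  F2 p + F2 (c3H p) - N p - N (c3H p) + nnH f l A F1 B C F2 (gGH p)

/-- The target for even exponents: `(((f, l), (A, F1)), ((B, C), (F2, N)))`, the values `{∞, 0}`, `{∞, 1/2}`, `{1/2, 3/7}`, `{∞, 1}`, `{2/3, 4/7}`, `{4/7, 1/2}`, `{∞, 2}`, `{17/7, 7/3}`. -/
def subEH (m : ℕ) : Submodule ℂ ((((Pt m → ℂ) × (Pt m → ℂ)) × ((Pt m → ℂ) × (Pt m → ℂ))) ×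
    (((Pt m → ℂ) × (Pt m → ℂ)) × ((Pt m → ℂ) × (Pt m → ℂ)))) where
  carrier := {F | (F.1.1.1 ∈ inv5 (m := m) ng swH 1 1 ∧ F.1.1.2 ∈ anti5 m ∧ F.1.2.1 ∈ inv5 (m := m) r1H r1H 1 1 ∧
      F.1.2.2 ∈ anti5 m) ∧
    (F.2.1.1 ∈ inv5 (m := m) r6H r6H 1 1 ∧ F.2.1.2 ∈ inv5 (m := m) c7H c7H (-1) (-1) ∧ F.2.2.1 ∈ anti5 m ∧
      F.2.2.2 ∈ inv5 (m := m) c4H c4H (-1) (-1)) ∧
    (∀ p : Pt m, yyH F.1.1.1 F.1.1.2 F.1.2.1 F.1.2.2 F.2.1.1 F.2.1.2 F.2.2.1 F.2.2.2 p -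
      yyH F.1.1.1 F.1.1.2 F.1.2.1 F.1.2.2 F.2.1.1 F.2.1.2 F.2.2.1 F.2.2.2 (dR 1 p) = 0)}
  add_mem' := by
    rintro F F' ⟨⟨h0, h1, h2, h3⟩, ⟨h4, h5, h6, h7⟩, e0⟩ ⟨⟨h0', h1', h2', h3'⟩, ⟨h4', h5', h6', h7'⟩, e0'⟩
    refine ⟨⟨Submodule.add_mem _ h0 h0', (anti5 m).add_mem h1 h1', Submodule.add_mem _ h2 h2', (anti5 m).add_mem h3 h3'⟩,
      ⟨Submodule.add_mem _ h4 h4', Submodule.add_mem _ h5 h5', (anti5 m).add_mem h6 h6', Submodule.add_mem _ h7 h7'⟩,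
      fun p => ?_⟩
    have a := e0 p
    have b := e0' p
    simp only [yyH, nnH, xxH, kkH, eeH, Prod.fst_add, Prod.snd_add, Pi.add_apply] at a b ⊢
    linear_combination a + b
  zero_mem' := ⟨⟨Submodule.zero_mem _, (anti5 m).zero_mem, Submodule.zero_mem _, (anti5 m).zero_mem⟩,
    ⟨Submodule.zero_mem _, Submodule.zero_mem _, (anti5 m).zero_mem, Submodule.zero_mem _⟩,
    by intro p; simp [yyH, nnH, xxH, kkH, eeH]⟩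
  smul_mem' := by
    rintro c F ⟨⟨h0, h1, h2, h3⟩, ⟨h4, h5, h6, h7⟩, e0⟩
    refine ⟨⟨Submodule.smul_mem _ c h0, (anti5 m).smul_mem c h1, Submodule.smul_mem _ c h2, (anti5 m).smul_mem c h3⟩,
      ⟨Submodule.smul_mem _ c h4, Submodule.smul_mem _ c h5, (anti5 m).smul_mem c h6, Submodule.smul_mem _ c h7⟩,
      fun p => ?_⟩
    have a := e0 p
    simp only [yyH, nnH, xxH, kkH, eeH, Prod.smul_fst, Prod.smul_snd, Pi.smul_apply, smul_eq_mul] at a ⊢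
    linear_combination c * a

/-- The content of DIMO. -/
def HDimO : Prop := ∀ m : ℕ, 1 ≤ m →
  Module.finrank ℂ (subOH m) = 16 * 25 ^ (m - 1) + 6 * 5 ^ (m - 1)

/-- DIMO (from TYP, DIMKH, SPLIT). `a = 25^(m-1)`, `b = 5^(m-1)`. `Vf = inv5 ng swH 1 1`, `Vl = inv5 (dR 0) cOH 1 1` have dimension `4a + 2b` (types `0, 1, 1`), `V2 = inv5 r2H r2H 1 1`, `V3 = inv5 r3H r3H 1 1`, `VW = inv5 swH swH 1 1` have `8a + 2b` (second part of `HDimK`). The map `((f, l), (e2, e3)) ↦ α + α∘swH + l∘gOH - f`,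
`α = alH e2 e3`, from `(Vf × Vl) × (V2 × V3)` to `VW` (`l∘gOH∘swH = l∘cOH∘gOH = l∘gOH`) is onto: for `φ` in `VW` let (SPLIT, `μ = 0`) `φ/2 = f0 + l0`, `f0` invariant under `ng`, `l0` under `dR 0`; take `f = -(f0 + f0∘swH)`, `l = l0 + l0∘cOH`, `e2 = l0 + l0∘r2H`, `e3 = l0 + l0∘r3H` (`ng` commutes with `swH`, `dR 0` with `cOH`). Then
`e3∘gOH = l0∘gOH + l0∘r2H`, so `α = l0 - l0∘gOH`; `l∘gOH = l0∘gOH + l0∘gOH∘swH`; `α + α∘swH + l∘gOH = l0 + l0∘swH`, and the image is `(1 + swH)(l0 + f0) = φ`. The kernel is `subOH m`: `(4a+2b)·2 + (8a+2b)·2 - (8a+2b)`. Models: `Pool/Agent/Helper94/TK5/M_DIMOK.lean`. -/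
def StHDimO : Prop := HTyp → HDimK → S5Split → HDimO

/-- The content of DIME. -/
def HDimE : Prop := ∀ m : ℕ, 1 ≤ m → Module.finrank ℂ (subEH m) = 80 * 25 ^ (m - 1) + 2 * 5 ^ (m - 1)

/-- DIME (from TYP, DIMKH, DIMK, SPLIT). `V = anti5 m` has dimension `16a` (first part of `S5DimK`), `Vf = inv5 ng swH 1 1` has `4a + 2b`, `VA = inv5 r1H r1H 1 1`, `VB = inv5 r6H r6H 1 1` have `8a + 2b`, `VC = inv5 c7H c7H (-1) (-1)`, `VN = inv5 c4H c4H (-1) (-1)` have `8a - 2b`, `T = inv5 (dR 1) c3H (-1) 1` has `4a`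
(types `0, 1, 1`: `0 + 1 - 1`). The map `F ↦ y - y∘dR 1`, `y = yyH f l A F1 B C F2 N`, from `((Vf × V) × (VA × V)) × ((VB × VC) × (V × VN))` to `T` (`y∘c3H = y`: `eeH∘swH = eeH`, so `eeH∘gMH∘c2H = eeH∘gMH` and `nnH∘c2H = nnH`; `nnH∘gGH∘c3H = nnH∘c2H∘gGH = nnH∘gGH`; `dR 1` commutes with `c3H`; composition with the maps of
type `0`, `1` preserves `anti5 m`) is onto: for `φ` in `T` let (SPLIT, `μ = 1`) `φ/4 = f0 + l0`, `f0` invariant under `ng`, `l0` under `dR 1`; take `f = f0 + f0∘swH`, `l = F1 = F2 = f0`, `A = B = C = N = 0`. Then `eeH = 0`, `kkH = f0∘gAH`, `kkH∘gEH = f0`, `xxH = 0`, `nnH = 0`, `y = f0 + f0∘c3H`, and `y - y∘dR 1 = (1 - dR 1)(1 + c3H)(φ/4 - l0) = φ`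
(`l0 + l0∘c3H` is invariant under `dR 1`). The kernel is `subEH m`: `(4a+2b) + 16a + (8a+2b) + 16a + (8a+2b) + (8a-2b) + 16a + (8a-2b) - 4a = 80a + 2b`. Models: `Pool/Agent/Helper56/TK5/M_DIMEK.lean`. -/
def StHDimE : Prop := HTyp → HDimK → S5DimK → S5Split → HDimE

/-! ### Representatives -/

/-- Thirty representatives with bottom row proportional to `(0, 1)` modulo `7` (of the classes of `SL₂(ℤ)` modulo `(* 5*; 35* *)`). -/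
def LH01 : List (ℤ × ℤ × ℤ × ℤ) :=
  [(-5, -3, 7, 4), (4, 1, 7, 2), (-4, -7, 7, 12), (3, 2, 7, 5), (-3, 2, 7, -5), (-3, 5, 7, -12), (-8, 1, 7, -1),
   (-5, 2, 7, -3), (-10, 7, 7, -5), (3, 5, 7, 12), (1, -1, 7, -6), (-4, -3, 7, 5), (3, -1, 7, -2), (8, 1, 7, 1),
   (4, -3, 7, -5), (-3, -1, 7, 2), (-1, 2, 0, -1), (-1, 0, 0, -1), (-8, -7, 7, 6), (5, 2, 7, 3), (5, -3, 7, -4),
   (-4, 1, 7, -2), (8, -7, 7, -6), (-1, -2, 0, -1), (-1, 1, 0, -1), (1, 0, 7, 1), (-1, 0, 7, -1), (-1, -1, 7, 6),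
   (-1, -1, 0, -1), (4, -7, 7, -12)]

/-- Thirty representatives with bottom row proportional to `(1, 0)` modulo `7` (of the classes of `SL₂(ℤ)` modulo `(* 5*; 35* *)`). -/
def LH10 : List (ℤ × ℤ × ℤ × ℤ) :=
  [(-1, 3, 2, -7), (3, 4, 5, 7), (0, -1, 1, -7), (1, 3, 2, 7), (1, -4, 2, -7), (-1, -1, 1, 0), (-2, -1, 1, 0),
   (7, 4, 12, 7), (-5, -3, 12, 7), (2, -3, 5, -7), (-2, -5, 3, 7), (0, -1, 1, 0), (-1, -8, 1, 7), (-3, 4, 5, -7),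
   (1, -8, 1, -7), (-1, -4, 2, 7), (-1, 1, 6, -7), (1, 1, 6, 7), (0, -1, 1, 7), (2, -5, 3, -7), (3, 5, 4, 7),
   (5, -3, 12, -7), (2, -1, 1, 0), (-2, -3, 5, 7), (-7, 8, 6, -7), (-3, 5, 4, -7), (7, 8, 6, 7), (-7, -10, 5, 7),
   (1, -1, 1, 0), (-7, 4, 12, -7)]

/-- Thirty representatives with bottom row proportional to `(1, 1)` modulo `7` (of the classes of `SL₂(ℤ)` modulo `(* 5*; 35* *)`). -/
def LH11 : List (ℤ × ℤ × ℤ × ℤ) :=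
  [(0, -1, 1, 1), (-4, 5, 3, -4), (-2, -3, 1, 1), (-3, 7, 2, -5), (5, -4, 4, -3), (0, -1, 1, -6), (2, 1, 1, 1),
   (7, -3, 5, -2), (5, 2, 12, 5), (5, -7, 3, -4), (2, -3, 3, -4), (1, -1, 4, -3), (1, -7, 1, -6), (-7, 1, 6, -1),
   (-1, 2, 2, -5), (-3, 2, 4, -3), (-1, 1, 3, -4), (-7, 9, 3, -4), (-3, 1, 5, -2), (1, 0, 1, 1), (-7, -3, 12, 5),
   (-1, -2, 1, 1), (-1, 0, 6, -1), (-2, -5, 5, 12), (-7, 5, 4, -3), (2, -1, 5, -2), (1, -3, 2, -5), (-8, -3, 11, 4),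
   (9, -7, 4, -3), (3, 7, 5, 12)]

/-- Thirty representatives with bottom row proportional to `(1, 2)` modulo `7` (of the classes of `SL₂(ℤ)` modulo `(* 5*; 35* *)`). -/
def LH12 : List (ℤ × ℤ × ℤ × ℤ) :=
  [(0, -1, 1, -5), (2, -1, 3, -1), (-1, -3, 1, 2), (-3, 4, 2, -3), (-3, -1, 4, 1), (-1, 1, 2, -3), (7, 4, 5, 3),
   (-2, -5, 1, 2), (-1, 0, 3, -1), (-7, -2, 4, 1), (1, -6, 1, -5), (1, -2, 2, -3), (-7, -6, 6, 5), (6, -5, 5, -4),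
   (2, 1, 5, 3), (11, -9, 5, -4), (5, 1, 4, 1), (-1, -1, 6, 5), (3, -5, 2, -3), (-7, 2, 3, -1), (0, -1, 1, 2),
   (9, 2, 4, 1), (1, 0, 4, 1), (-4, 1, 3, -1), (5, -2, 3, -1), (2, 3, 1, 2), (2, -11, 1, -5), (1, 1, 1, 2),
   (-5, 7, 2, -3), (1, -1, 5, -4)]

/-- Thirty representatives with bottom row proportional to `(1, 3)` modulo `7` (of the classes of `SL₂(ℤ)` modulo `(* 5*; 35* *)`). -/
def LH13 : List (ℤ × ℤ × ℤ × ℤ) :=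
  [(0, -1, 1, 3), (9, 11, 4, 5), (2, 5, 1, 3), (-3, 1, 2, -1), (2, 1, 3, 2), (-1, -4, 1, 3), (-7, -5, 3, 2),
   (1, 0, 5, 1), (-1, 3, 1, -4), (4, -7, 3, -5), (6, 1, 5, 1), (1, -2, 3, -5), (3, -2, 2, -1), (-5, 2, 2, -1),
   (1, -5, 1, -4), (-1, 0, 2, -1), (-6, 7, 5, -6), (-4, -3, 3, 2), (2, -9, 1, -4), (-1, -1, 3, 2), (5, 3, 3, 2),
   (-1, 1, 5, -6), (11, 2, 5, 1), (1, 2, 1, 3), (1, 1, 4, 5), (0, -1, 1, -4), (5, 6, 4, 5), (-2, -7, 1, 3),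
   (1, -1, 2, -1), (-2, 7, 1, -4)]

/-- Thirty representatives with bottom row proportional to `(1, 4)` modulo `7` (of the classes of `SL₂(ℤ)` modulo `(* 5*; 35* *)`). -/
def LH14 : List (ℤ × ℤ × ℤ × ℤ) :=
  [(5, 2, 2, 1), (-2, 1, 3, -2), (7, -5, 3, -2), (3, 1, 2, 1), (4, -3, 3, -2), (-1, -2, 3, 5), (1, -4, 1, -3),
   (1, 1, 5, 6), (2, -7, 1, -3), (-5, 3, 3, -2), (1, -1, 3, -2), (6, 7, 5, 6), (-2, 5, 1, -3), (-2, -9, 1, 4),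
   (-5, 6, 4, -5), (-1, -1, 2, 1), (-1, 0, 5, -1), (-1, -5, 1, 4), (-4, -7, 3, 5), (0, -1, 1, -3), (2, 7, 1, 4),
   (-6, 1, 5, -1), (-1, 2, 1, -3), (-1, 1, 4, -5), (-3, -2, 2, 1), (1, 0, 2, 1), (-11, 2, 5, -1), (1, 3, 1, 4),
   (-9, 11, 4, -5), (0, -1, 1, 4)]

/-- Thirty representatives with bottom row proportional to `(1, 5)` modulo `7` (of the classes of `SL₂(ℤ)` modulo `(* 5*; 35* *)`). -/
def LH15 : List (ℤ × ℤ × ℤ × ℤ) :=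
  [(-2, -11, 1, 5), (-9, 2, 4, -1), (7, -6, 6, -5), (-2, 1, 5, -3), (-11, -9, 5, 4), (7, -2, 4, -1), (-1, 1, 1, -2),
   (-3, -5, 2, 3), (-5, -2, 3, 1), (2, -5, 1, -2), (-1, -2, 2, 3), (-1, -6, 1, 5), (-7, 4, 5, -3), (3, -1, 4, -1),
   (-1, -1, 5, 4), (-6, -5, 5, 4), (1, 1, 2, 3), (0, -1, 1, -2), (-2, 3, 1, -2), (-1, 0, 4, -1), (7, 2, 3, 1),
   (-2, -1, 3, 1), (4, 1, 3, 1), (0, -1, 1, 5), (5, 7, 2, 3), (1, -3, 1, -2), (-5, 1, 4, -1), (3, 4, 2, 3),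
   (1, 0, 3, 1), (1, -1, 6, -5)]

/-- Thirty representatives with bottom row proportional to `(1, 6)` modulo `7` (of the classes of `SL₂(ℤ)` modulo `(* 5*; 35* *)`). -/
def LH16 : List (ℤ × ℤ × ℤ × ℤ) :=
  [(-2, -3, 3, 4), (1, 1, 3, 4), (-2, 1, 1, -1), (0, -1, 1, -1), (-2, -1, 5, 2), (7, 1, 6, 1), (3, 7, 2, 5),
   (4, 5, 3, 4), (-5, -4, 4, 3), (-3, 7, 5, -12), (3, 1, 5, 2), (-1, -1, 4, 3), (-3, 2, 1, -1), (1, -2, 1, -1),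
   (-3, 8, 4, -11), (1, 2, 2, 5), (-5, -7, 3, 4), (1, 0, 6, 1), (-7, -3, 5, 2), (-1, -3, 2, 5), (-1, -7, 1, 6),
   (3, 2, 4, 3), (-9, -7, 4, 3), (-5, 2, 12, -5), (7, -3, 12, -5), (7, 5, 4, 3), (-1, 0, 1, -1), (2, -5, 5, -12),
   (7, 9, 3, 4), (0, -1, 1, 6)]

/-- The forty-eight representatives of `Γ₀(35) \ SL₂(ℤ)`. -/
def LHO : List (ℤ × ℤ × ℤ × ℤ) :=
  [(-2, 1, 7, -4), (2, 1, 7, 4), (-2, -1, 7, 3), (-3, -1, 7, 2), (-3, 2, 7, -5), (-1, 0, 0, -1), (0, -1, 1, 0),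
   (-1, -2, 4, 7), (-1, 2, 3, -7), (1, -2, 4, -7), (-2, -3, 5, 7), (-1, 3, 2, -7), (2, -1, 5, -2), (0, -1, 1, 1),
   (1, -1, 4, -3), (-1, 5, 1, -6), (-1, 1, 3, -4), (-1, 2, 2, -5), (2, 1, 5, 3), (-1, 0, 3, -1), (1, 0, 4, 1),
   (-1, 4, 1, -5), (-1, 1, 2, -3), (0, -1, 1, 2), (-1, 0, 2, -1), (-1, -1, 3, 2), (-4, -1, 5, 1), (1, -2, 3, -5),
   (0, -1, 1, -4), (0, -1, 1, 3), (1, -1, 3, -2), (1, 0, 2, 1), (4, -1, 5, -1), (-1, -2, 3, 5), (0, -1, 1, -3),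
   (0, -1, 1, 4), (1, 0, 3, 1), (-2, 1, 5, -3), (1, 1, 2, 3), (-1, 0, 4, -1), (1, 4, 1, 5), (0, -1, 1, -2),
   (-1, 0, 1, -1), (-2, -1, 5, 2), (1, 1, 3, 4), (-1, -1, 4, 3), (-5, -1, 6, 1), (1, 2, 2, 5)]

/-- The content of E1A. -/
def HE1a : Prop := ∀ (k : ℕ) (G : ℤ → ℤ → ℂ), 2 ≤ k → BalEH k G →
  ((((fun p : Pt (k - 1) => edgeH 1 1 0 0 1 G p.1 p.2), (fun p : Pt (k - 1) => edgeH 1 1 0 1 2 G p.1 p.2)),
    ((fun p : Pt (k - 1) => edgeH 1 1 2 3 7 G p.1 p.2), (fun p : Pt (k - 1) => edgeH 1 1 0 1 1 G p.1 p.2))),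
    (((fun p : Pt (k - 1) => edgeH 1 2 3 4 7 G p.1 p.2), (fun p : Pt (k - 1) => edgeH 1 4 7 1 2 G p.1 p.2)),
    ((fun p : Pt (k - 1) => edgeH 1 1 0 2 1 G p.1 p.2), (fun p : Pt (k - 1) => edgeH 1 17 7 7 3 G p.1 p.2)))) ∈ subEH (k - 1)

/-- E1A (from EDG, PLA, TYP). Even exponent, `m = k - 1`, `μ = 1`: `f = {∞, 0}`, `l = {∞, 1/2}`, `A = {1/2, 3/7}`, `F1 = {∞, 1}`, `B = {2/3, 4/7}`, `C = {4/7, 1/2}`, `F2 = {∞, 2}`, `N = {17/7, 7/3}`. (i) `anti5`: `(1 i5^(k-1); 0 1) g` has coordinates `(x + i 5^(k-2), y)`, `(1 0; 7i5^(k-1) 1) g` has `(x, y + 7i 5^(k-2))` for standard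
`g` (`i ↦ 7i` is a bijection modulo `5`). (ii) By the rule at the head of this file: `f(ng p) = f(p)`, `f(swH p) = -{0, ∞} = f(p)`; `A(r1H p) = -{3/7, 1/2} = A(p)`; `B(r6H p) = -{4/7, 2/3} = B(p)`; `C(c7H p) = -C(p)` (`(15 -8; 28 -15)` fixes `1/2`, `4/7`); `N(c4H p) = -N(p)` (`(50 -119; 21 -50)` fixes `17/7`, `7/3`). (iii) Tile
`∞, 1/2, 3/7, 1/3, 2/7, 0`: `l(swH p) = -{0, 2/7}`, `A(swH p) = -{2/7, 1/3}`: `eeH f l A p = {∞,0} - {∞,1/2} + {0,2/7} - {1/2,3/7} + {2/7,1/3} = {3/7, 1/3}` (as `{u,v} = G(gu) - G(gv)`). (iv) Tile `∞, 1, 5/7, 2/3, 4/7, 1/2`: `F1(gAH p) = -{5/7, 2/3}`: `kkH p = {∞,1/2} - {∞,1} - {5/7,2/3} - {2/3,4/7} - {4/7,1/2} = {1, 5/7}`. (v) Tile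
`∞, 2, 12/7, 5/3, 11/7, 3/2`: `kkH (gEH p) = -{3/2, ∞}`, `xxH p = {∞,3/2} - {∞,2} = {2, 3/2}`, `xxH (c2H p) = -{12/7, 11/7}` (`(35 -58; 21 -35)`), `eeH (gMH p) = {2, 12/7}`: `nnH p = {2,3/2} - {12/7,11/7} - {2,12/7} = {11/7, 3/2}`. (vi) Tile `∞, 5/2, 17/7, 7/3, 16/7, 2`: `F2(c3H p) = -{5/2, 17/7}`, `N(c3H p) = -{2, 16/7}`,
`nnH (gGH p) = -{7/3, 16/7}`: `yyH p = {∞,2} - {5/2,17/7} - {17/7,7/3} + {2,16/7} + {16/7,7/3} = {∞, 5/2}`, and `dR 1` (`(-1 5; 0 1)`) fixes `∞`, `5/2`. Model: `Pool/Agent/Helper55/TK5/M_E1AK.lean`. -/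
def StHE1a : Prop := HEdg → HPlA → HTyp → HE1a

/-- The content of E1B. -/
def HE1b : Prop := ∀ (k : ℕ) (G : ℤ → ℤ → ℂ), 2 ≤ k → BalEH k G →
  (∀ x y : ZMod (5 ^ (k - 1)), ((edgeH 1 1 0 0 1 G x y = 0 ∧ edgeH 1 1 0 1 2 G x y = 0) ∧
    (edgeH 1 1 2 3 7 G x y = 0 ∧ edgeH 1 1 0 1 1 G x y = 0)) ∧
    ((edgeH 1 2 3 4 7 G x y = 0 ∧ edgeH 1 4 7 1 2 G x y = 0) ∧
    (edgeH 1 1 0 2 1 G x y = 0 ∧ edgeH 1 17 7 7 3 G x y = 0))) → EqC G 0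

/-- E1B (from EDG, PLA, FAR). `~` as in E1BH of TH (`Pool/Agent/Helper74/TH/M_E1BH.lean`), invariant under `(a 5b; 5c d)` of type `HTy`, `*`, `b = (0 1; 7 0)`. Given: `∞ ~ 0`, `∞ ~ 1/2`, `1/2 ~ 3/7`, `∞ ~ 1`, `2/3 ~ 4/7`, `4/7 ~ 1/2`, `∞ ~ 2`, `17/7 ~ 7/3`; `2 ~ 16/7` (`17/7 ~ 7/3` by `b`, `(87 -5; 35 -2)`): all these except `17/7`, `7/3`
are equivalent, with `*` also their negatives. Then (apply the word, then the matrix to a known equivalence): `∞ ~ 1/7` (`0 ~ 1` by `b`); `∞ ~ 1/3` (`0 ~ 3/7` by `b`); `0 ~ 1/4` (`∞ ~ 4/7` by `b`); `∞ ~ 3` (`∞ ~ -2` by `(1 5; 0 1)`); `1 ~ 8/7` (`-4/7 ~ -1/2` by `b`, `(-39 -10; -35 -9)`); `-4/7 ~ -3/5` (`1 ~ ∞` by `(-21 25; 35 -42)`); `-1/4 ~ -1/5` (`2/3 ~ 3/5` by `(-8 5; 35 -22)`); `0 ~ 5/7` (`∞ ~ 1/5` by `b`); `8/7 ~ 6/5` (`-1/2 ~ ∞` by `(42 25; 35 21)`); `6/5 ~ 5/4` (`∞ ~ -5/7`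 by `(42 25; 35 21)`); `6/5 ~ 7/6` (`∞ ~ -3/7` by `(42 25; 35 21)`); `-5/4 ~ -10/7` (`∞ ~ 6/5` by `b`, `(44 -5; -35 4)`); `-5/4 ~ -4/3` (`∞ ~ 8/7` by `b`, `(44 -5; -35 4)`); `-10/7 ~ -7/5` (`0 ~ ∞` by `(49 10; -35 -7)`); `-7/5 ~ -3/2` (`∞ ~ -1/7` by `(49 10; -35 -7)`); `3/7 ~ 2/5` (`-2 ~ ∞` by `(14 25; 35 63)`); `5/7 ~ 3/4` (`-2/5 ~ -3/7` by `b`, `(-27 -10; -35 -13)`); `-2 ~ -7/4` (`1/3 ~ 1/2` by `b`, `(-63 25; 35 -14)`); `-7/4 ~ -5/3` (`1/2 ~ 2/5` by `b`, `(-63 25; 35 -14)`); `5/7 ~ 8/11` (`∞ ~ 3` by `b`, `(49 -5; 70 -7)`); `3/7 ~ 5/12` (`-2 ~ ∞` by `b`, `(-73 -5; -175 -12)`); `1/5 ~ 1/6` (`5/3 ~ 3/2` by `b`, `(56 -5; 315 -28)`); `-3/5 ~ -7/12` (`0 ~ 1/6` by `b`, `(-21 25; 35 -42)`); `16/7 ~ 9/4` (`1/7 ~ 1/6` by `(-159 25; -70 11)`); `-2 ~ -7/3` (`-2 ~ -9/4` by `b`, `(-224 -15; 105 7)`); `-16/7 ~ -5/2` (`-7/3 ~ ∞`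 by `b`, `(87 5; -35 -2)`); `-2 ~ -11/5` (`-2 ~ -5/2` by `b`, `(-224 -15; 105 7)`). With `*`: `∞, 0, ±1, ±1/2, ±2, ±3, ±1/3, ±3/2, ±2/3, ±3/4, ±4/3, ±1/4, ±5/4, ±2/5, ±5/3, ±1/5, ±3/5, ±5/2, ±1/6, ±6/5, ±3/7, ±5/7, ±7/4, ±7/3, ±7/6, ±4/7, ±1/7, ±7/5, ±8/7, ±9/4, ±10/7, ±11/5, ±8/11, ±5/12, ±7/12` are equivalent: both cusps of every matrix in the eight lists. Every matrix of `SL₂(ℤ)` is `g' ρ`, `g' = (a 5b; 35c d)` of determinant one,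
`ρ` in the list of the class of its bottom row modulo `7` up to units (`decide` on `ZMod 5` for each list: exactly one `ρ` satisfies `5 ∣ q r1 - p r2`, `5 ∣ r r4 - s r3`). FAR. Models: `Pool/Agent/Helper25/TK5/M_E1BK.lean`, `Pool/Agent/Helper77/TK7/M_E1BK7.lean`. -/
def StHE1b : Prop := HEdg → HPlA → StFar → HE1b

/-- The content of O1. -/
def HO1 : Prop := ∀ (k : ℕ) (G : ℤ → ℤ → ℂ), 1 ≤ k → BalOH k G →
  ((((fun p : Pt k => edgeH 0 1 0 0 1 G p.1 p.2), (fun p : Pt k => edgeH 0 1 0 1 2 G p.1 p.2)),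
    ((fun p : Pt k => edgeH 0 1 0 2 7 G p.1 p.2), (fun p : Pt k => edgeH 0 1 0 1 3 G p.1 p.2))) ∈ subOH k) ∧
  ((∀ x y : ZMod (5 ^ k), (edgeH 0 1 0 0 1 G x y = 0 ∧ edgeH 0 1 0 1 2 G x y = 0) ∧
    (edgeH 0 1 0 2 7 G x y = 0 ∧ edgeH 0 1 0 1 3 G x y = 0)) → EqC G 0)

/-- O1 (from EDG, PLA, TYP, FAR). Odd exponent, `m = k`, `μ = 0`, `b = (0 1; 35 0)`: `f = {∞, 0}`, `l = {∞, 1/2}`, `e2 = {∞, 2/7}`, `e3 = {∞, 1/3}`. `f(ng p) = f(p)`, `f(swH p) = f(p)`; `l(dR 0 p) = l(p)`, `l(cOH p) = -{1/2, ∞} = l(p)` (`(35 -17; 70 -35)`); `e2(r2H p) = -{2/7, ∞} = e2(p)`, `e3(r3H p) = -{1/3, ∞} = e3(p)`.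
Triangle `∞, 1/5, 2/7`: `e3(gOH p) = {1/5, 2/7}` (`(7 -3; 35 -14)`, an element of the group: no sign), so `alH e2 e3 p = {∞, 1/5}`. Square `∞, 0, 1/7, 1/5`: `alH (swH p) = -{0, 1/7}`, `l(gOH p) = {1/5, 1/7}`: `{∞,1/5} - {0,1/7} + {1/5,1/7} - {∞,0} = 0`. Injectivity (`~` as in E1B for `(a b; 5c d)` of type `HTy`): given `∞ ~ 0`, `∞ ~ 1/2`, `∞ ~ 2/7`,
`∞ ~ 1/3`; `∞ ~ -1` (`∞ ~ 0` by `(1 -1; 0 1)`); `-1/3 ~ -2/5` (`∞ ~ 2/7` by `b`, `(-12 1; 35 -3)`); `-1/2 ~ -3/7` (`∞ ~ -2/5` by `b`, `(17 1; -35 -2)`); `-2/7 ~ -1/4` (`-1/3 ~ -2/7` by `(7 3; -35 -14)`); `∞ ~ -4/5` (`-1/4 ~ -2/7` by `b`, `(-26 -3; 35 4)`); `4/5 ~ 5/6` (`1/2 ~ 2/5` by `b`, `(119 -6; 140 -7)`). With `*`: `0, ±1, ∞, ±1/2, ±1/3, ±1/4, ±4/5, ±2/5, ±5/6, ±2/7, ±3/7` are equivalent: both cusps of every matrix in `LHO`; every matrix of `SL₂(ℤ)` is `g' ρ` with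 `g'` in `Γ₀(35)` and `ρ` in `LHO` (bottom rows modulo `35` up to units; `decide` on `ZMod 5` and `ZMod 7` separately). FAR. Models: `Pool/Agent/Helper53/TK5/M_O1K.lean`, `Pool/Agent/Helper89/TK7/M_O1K7.lean`. -/
def StHO1 : Prop := HEdg → HPlA → HTyp → StFar → HO1

/-- The dimension of the new symbols of level `7 * 5^n` (`W = -1`, `* = +1`), `n ≥ 3`. -/
def dd (n : ℕ) : ℕ :=
  if n % 2 = 1 then 16 * 25 ^ (n / 2 - 1) + 6 * 5 ^ (n / 2 - 1) else 80 * 25 ^ (n / 2 - 2) + 2 * 5 ^ (n / 2 - 2)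

/-- UB. For `n = 2k ≥ 4` the map to the eight functions in `subEH (k-1)`, of dimension `dd n`; for `n = 2k+1 ≥ 3` the map to the four functions in `subOH k`, of dimension `dd n`. Models: `Pool/Agent/Helper80/TK5/M_UBHK.lean`, `Pool/Agent/Helper71/TK7/M_UBHK7.lean`, `Pool/Agent/Helper10/Q5P3/M_UB.lean`. -/
def StHUB : Prop := HBal → HE1a → HE1b → HO1 → HDimE → HDimO → UBH 5 dd

end Pool.Agent.Helper76.Q7P5
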